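import Pool.Agent.Helper10K9.MWS.Cov

/-! # Weyl sums at the points of an arithmetic progression: the mean of the `2s`-th moment -/

set_option autoImplicit false

open Finset

namespace Pool.Agent.Helper68K9.MW

open Pool.Agent.W928.MW (e e_add e_norm)
open Pool.Agent.TH181.MW (tup J prs)
open Pool.Agent.TH181.MX (KK_abs e_ee)
open Pool.Agent.H807R2.Dav (ee KK KK_nonneg KK_neg KK_le geo_bound vino)
open Pool.Agent.Helper10K9.MWS (smc pc Qc dl prod_c supc maxc dl_abs)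

/-- geometric sum -/
theorem geo_e (M : ℕ) (x : ℝ) : ‖∑ j ∈ Icc 1 M, e ((j : ℝ) * x)‖ ≤ KK M x := by
  have h1 := geo_bound 1 (M + 1) (by omega) (M := (M : ℝ)) (by push_cast; linarith) x
  have h2 : Ico 1 (M + 1) = Icc 1 M := by
    ext n; simp only [Finset.mem_Ico, Finset.mem_Icc]; omega
  rw [h2] at h1
  simpa only [e_ee] using h1

theorem sum_j {ι : Type} (S : Finset ι) (m : ι → ℤ) (a : ι → ℂ) (ha : ∀ i, ‖a i‖ ≤ 1) (α β : ℝ) (M : ℕ) :
    ∑ j ∈ Icc 1 M, ‖∑ i ∈ S, e ((β + (j : ℝ) * α) * (m i : ℝ)) * a i‖ ^ 2 ≤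
      ∑ z ∈ S ×ˢ S, KK M (((m z.1 - m z.2 : ℤ) : ℝ) * α) := by
  classical
  have h1 : ∀ x : ℝ, ((‖∑ i ∈ S, e (x * (m i : ℝ)) * a i‖ ^ 2 : ℝ) : ℂ) =
      ∑ z ∈ S ×ˢ S, e (x * ((m z.1 - m z.2 : ℤ) : ℝ)) * (a z.1 * (starRingEnd ℂ) (a z.2)) := by
    intro x
    have h2 : ((‖∑ i ∈ S, e (x * (m i : ℝ)) * a i‖ ^ 2 : ℝ) : ℂ) = (∑ i ∈ S, e (x * (m i : ℝ)) * a i) *
        (starRingEnd ℂ) (∑ i ∈ S, e (x * (m i : ℝ)) * a i) := by
      rw [Complex.mul_conj, Complex.normSq_eq_norm_sq]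
    rw [h2, map_sum, Finset.sum_mul_sum, ← Finset.sum_product']
    apply Finset.sum_congr rfl
    intro z _
    rw [map_mul, Pool.Agent.TH181.MX.e_conj]
    have : e (x * ((m z.1 - m z.2 : ℤ) : ℝ)) = e (x * (m z.1 : ℝ)) * e (-(x * (m z.2 : ℝ))) := by
      rw [← e_add]; congr 1; push_cast; ring
    rw [this]; ring
  have h0 : 0 ≤ ∑ j ∈ Icc 1 M, ‖∑ i ∈ S, e ((β + (j : ℝ) * α) * (m i : ℝ)) * a i‖ ^ 2 := by positivity
  have h3 : ∑ j ∈ Icc 1 M, ‖∑ i ∈ S, e ((β + (j : ℝ) * α) * (m i : ℝ)) * a i‖ ^ 2 =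
      ‖((∑ j ∈ Icc 1 M, ‖∑ i ∈ S, e ((β + (j : ℝ) * α) * (m i : ℝ)) * a i‖ ^ 2 : ℝ) : ℂ)‖ := by
    rw [Complex.norm_real, Real.norm_of_nonneg h0]
  rw [h3, Complex.ofReal_sum]
  simp_rw [h1]
  rw [Finset.sum_comm]
  refine (norm_sum_le _ _).trans ?_
  apply Finset.sum_le_sum
  intro z _
  have h4 : ∑ j ∈ Icc 1 M, e ((β + (j : ℝ) * α) * ((m z.1 - m z.2 : ℤ) : ℝ)) * (a z.1 * (starRingEnd ℂ) (a z.2)) =
      (e (β * ((m z.1 - m z.2 : ℤ) : ℝ)) * (a z.1 * (starRingEnd ℂ) (a z.2))) *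
        ∑ j ∈ Icc 1 M, e ((j : ℝ) * (((m z.1 - m z.2 : ℤ) : ℝ) * α)) := by
    rw [Finset.mul_sum]
    apply Finset.sum_congr rfl
    intro j _
    have : e ((β + (j : ℝ) * α) * ((m z.1 - m z.2 : ℤ) : ℝ)) =
        e (β * ((m z.1 - m z.2 : ℤ) : ℝ)) * e ((j : ℝ) * (((m z.1 - m z.2 : ℤ) : ℝ) * α)) := by
      rw [← e_add]; congr 1; ring
    rw [this]; ring
  rw [h4, norm_mul, norm_mul, norm_mul, e_norm, one_mul, Complex.norm_conj]
  have h5 : ‖a z.1‖ * ‖a z.2‖ ≤ 1 := mul_le_one₀ (ha _) (norm_nonneg _) (ha _)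
  calc ‖a z.1‖ * ‖a z.2‖ * ‖∑ j ∈ Icc 1 M, e ((j : ℝ) * (((m z.1 - m z.2 : ℤ) : ℝ) * α))‖
      ≤ 1 * ‖∑ j ∈ Icc 1 M, e ((j : ℝ) * (((m z.1 - m z.2 : ℤ) : ℝ) * α))‖ :=
        mul_le_mul_of_nonneg_right h5 (norm_nonneg _)
    _ ≤ KK M (((m z.1 - m z.2 : ℤ) : ℝ) * α) := by rw [one_mul]; exact geo_e M _

/-- pairs of tuples with equal sums -/
def PP (s N : ℕ) : Finset ((Fin s → ℕ) × (Fin s → ℕ)) :=
  ((tup s N) ×ˢ (tup s N)).filter (fun z => ∑ i, z.1 i = ∑ i, z.2 i)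

theorem PP_fib (s N : ℕ) (F : (Fin s → ℕ) × (Fin s → ℕ) → ℝ) :
    ∑ m ∈ range (s * N + 1), ∑ z ∈ (prs s N m) ×ˢ (prs s N m), F z = ∑ z ∈ PP s N, F z := by
  classical
  rw [← Finset.sum_fiberwise_of_maps_to (s := PP s N) (t := range (s * N + 1)) (g := fun z => ∑ i, z.1 i)]
  · apply Finset.sum_congr rfl
    intro m _
    apply Finset.sum_congr _ (fun _ _ => rfl)
    ext z
    unfold PP Pool.Agent.TH181.MW.prs
    simp only [Finset.mem_product, Finset.mem_filter]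
    constructor
    · rintro ⟨⟨h1, h2⟩, h3, h4⟩
      exact ⟨⟨⟨h1, h3⟩, h2.trans h4.symm⟩, h2⟩
    · rintro ⟨⟨⟨h1, h2⟩, h3⟩, h4⟩
      exact ⟨⟨h1, h4⟩, h2, h3 ▸ h4⟩
  · intro z hz
    unfold PP at hz
    rw [Finset.mem_filter, Finset.mem_product] at hz
    rw [Finset.mem_range]
    have := Pool.Agent.TH181.MW.tup_sum_le s N z.1 hz.1.1
    omega

theorem sum_Qc (c : ℕ → ℂ) (hc : ∀ n, ‖c n‖ ≤ 1) (s k N : ℕ) (α β : ℝ) (M : ℕ) :
    ∑ j ∈ Icc 1 M, Qc c s k N (β + (j : ℝ) * α) ≤ ∑ z ∈ PP s N, KK M (((dl s k z.1 z.2 : ℤ) : ℝ) * α) := by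
  unfold Pool.Agent.Helper10K9.MWS.Qc
  rw [Finset.sum_comm, ← PP_fib s N (fun z => KK M (((dl s k z.1 z.2 : ℤ) : ℝ) * α))]
  apply Finset.sum_le_sum
  intro m _
  exact sum_j (prs s N m) (fun z : Fin s → ℕ => ((∑ i, z i ^ k : ℕ) : ℤ)) (fun z => ∏ i, c (z i))
    (prod_c c hc s) α β M

/-- the sum over the pairs, grouped by the difference -/
theorem group (s k N : ℕ) (α : ℝ) (M R0 R1 : ℕ)
    (h0 : ((PP s N).filter (fun z => dl s k z.1 z.2 = 0)).card ≤ R0)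
    (h1 : ∀ d : ℤ, d ≠ 0 → d.natAbs ≤ s * N ^ k → ((PP s N).filter (fun z => dl s k z.1 z.2 = d)).card ≤ R1)
    (q : ℕ) (hq : 1 ≤ q) (a : ℤ) (hcop : IsCoprime a (q : ℤ)) (hα : |α - a / q| ≤ 1 / (q : ℝ) ^ 2) :
    ∑ z ∈ PP s N, KK M (((dl s k z.1 z.2 : ℤ) : ℝ) * α) ≤
      3 * M * (R0 : ℝ) + 2 * (R1 : ℝ) *
        ((((s * N ^ k + 1 : ℕ) : ℝ) / q + 1) * (39 * M + 3 * q * (1 + Real.log q))) := by
  classical
  set H : ℕ := s * N ^ k + 1 with hH
  have hM0 : (0 : ℝ) ≤ M := by positivity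
  rw [← Finset.sum_filter_add_sum_filter_not (PP s N) (fun z => dl s k z.1 z.2 = 0)]
  apply add_le_add
  · calc ∑ z ∈ (PP s N).filter (fun z => dl s k z.1 z.2 = 0), KK M (((dl s k z.1 z.2 : ℤ) : ℝ) * α)
        ≤ ∑ _z ∈ (PP s N).filter (fun z => dl s k z.1 z.2 = 0), 3 * (M : ℝ) :=
          Finset.sum_le_sum (fun z _ => KK_le hM0 _)
      _ = 3 * M * (((PP s N).filter (fun z => dl s k z.1 z.2 = 0)).card : ℝ) := by
          rw [Finset.sum_const, nsmul_eq_mul]; ring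
      _ ≤ 3 * M * (R0 : ℝ) := by
          apply mul_le_mul_of_nonneg_left _ (by positivity)
          exact_mod_cast h0
  · have h2 : ∀ z ∈ (PP s N).filter (fun z => ¬ dl s k z.1 z.2 = 0), (dl s k z.1 z.2).natAbs ∈ range H := by
      intro z hz
      rw [Finset.mem_filter] at hz
      have h3 := hz.1
      unfold PP at h3
      rw [Finset.mem_filter, Finset.mem_product] at h3
      rw [Finset.mem_range]
      have := dl_abs s k N z.1 z.2 h3.1.1 h3.1.2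
      omega
    rw [← Finset.sum_fiberwise_of_maps_to h2]
    have h3 : ∀ m ∈ range H, ∑ z ∈ ((PP s N).filter (fun z => ¬ dl s k z.1 z.2 = 0)).filter
        (fun z => (dl s k z.1 z.2).natAbs = m), KK M (((dl s k z.1 z.2 : ℤ) : ℝ) * α) ≤
        2 * (R1 : ℝ) * KK M (0 + (m : ℝ) * α) := by
      intro m hm
      rw [zero_add]
      have h4 : ∀ z ∈ ((PP s N).filter (fun z => ¬ dl s k z.1 z.2 = 0)).filter
          (fun z => (dl s k z.1 z.2).natAbs = m), KK M (((dl s k z.1 z.2 : ℤ) : ℝ) * α) = KK M ((m : ℝ) * α) := by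
        intro z hz
        rw [KK_abs, (Finset.mem_filter.mp hz).2]
      rw [Finset.sum_congr rfl h4, Finset.sum_const, nsmul_eq_mul]
      apply mul_le_mul_of_nonneg_right _ (KK_nonneg hM0 _)
      have h5 : (((PP s N).filter (fun z => ¬ dl s k z.1 z.2 = 0)).filter
          (fun z => (dl s k z.1 z.2).natAbs = m)).card ≤ 2 * R1 := by
        rcases Nat.eq_zero_or_pos m with hm0 | hm0
        · have h6 : ((PP s N).filter (fun z => ¬ dl s k z.1 z.2 = 0)).filter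
            (fun z => (dl s k z.1 z.2).natAbs = m) = ∅ := by
            rw [Finset.eq_empty_iff_forall_notMem]
            intro z hz
            rw [Finset.mem_filter, Finset.mem_filter] at hz
            omega
          rw [h6, Finset.card_empty]
          omega
        · rw [Finset.mem_range] at hm
          have h6 := h1 (m : ℤ) (by omega) (by rw [Int.natAbs_natCast]; omega)
          have h7 := h1 (-(m : ℤ)) (by omega) (by rw [Int.natAbs_neg, Int.natAbs_natCast]; omega)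
          have h8 : ((PP s N).filter (fun z => ¬ dl s k z.1 z.2 = 0)).filter
            (fun z => (dl s k z.1 z.2).natAbs = m) ⊆ (PP s N).filter (fun z => dl s k z.1 z.2 = (m : ℤ)) ∪
              (PP s N).filter (fun z => dl s k z.1 z.2 = -(m : ℤ)) := by
            intro z hz
            rw [Finset.mem_filter, Finset.mem_filter] at hz
            rw [Finset.mem_union, Finset.mem_filter, Finset.mem_filter]
            rcases Int.natAbs_eq (dl s k z.1 z.2) with h9 | h9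
            · left; exact ⟨hz.1.1, by rw [h9, hz.2]⟩
            · right; exact ⟨hz.1.1, by rw [h9, hz.2]⟩
          have h9 := (Finset.card_le_card h8).trans (Finset.card_union_le _ _)
          omega
      exact_mod_cast h5
    refine (Finset.sum_le_sum h3).trans ?_
    rw [← Finset.mul_sum]
    apply mul_le_mul_of_nonneg_left _ (by positivity)
    exact vino hq hcop hα hM0 0 H

/-- bad multipliers -/
def Bad (c : ℕ → ℂ) (k N M : ℕ) (α β V : ℝ) : Set ℕ :=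
  {m : ℕ | 1 ≤ m ∧ m ≤ M ∧ ∃ (ξ : ℝ) (u v : ℕ), v ≤ N ∧
    V ≤ ‖∑ n ∈ Ioc u v, c n * e ((β + (m : ℝ) * α) * (n : ℝ) ^ k + ξ * (n : ℝ))‖}

theorem Bad_sub (c : ℕ → ℂ) (k N M : ℕ) (α β V : ℝ) : Bad c k N M α β V ⊆ ((Icc 1 M : Finset ℕ) : Set ℕ) := by
  intro m hm
  unfold Bad at hm
  rw [Finset.mem_coe, Finset.mem_Icc]
  exact ⟨hm.1, hm.2.1⟩

theorem ioc_smc (c : ℕ → ℂ) (k u v : ℕ) (t ξ : ℝ) (huv : u ≤ v) :
    ∑ n ∈ Ioc u v, c n * e (t * (n : ℝ) ^ k + ξ * (n : ℝ)) = smc c k v t ξ - smc c k u t ξ := by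
  unfold Pool.Agent.Helper10K9.MWS.smc
  have h1 : Icc 1 v = Icc 1 u ∪ Ioc u v := by
    ext n; simp only [Finset.mem_Icc, Finset.mem_union, Finset.mem_Ioc]; omega
  have h2 : Disjoint (Icc 1 u) (Ioc u v) := by
    rw [Finset.disjoint_left]
    intro n h3 h4
    rw [Finset.mem_Icc] at h3
    rw [Finset.mem_Ioc] at h4
    omega
  rw [h1, Finset.sum_union h2]
  ring

/-- a large incomplete sum gives a large complete sum -/
theorem exists_big (c : ℕ → ℂ) (k N : ℕ) (hN : 1 ≤ N) (t V : ℝ) (hV : 0 < V)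
    (h : ∃ (ξ : ℝ) (u v : ℕ), v ≤ N ∧ V ≤ ‖∑ n ∈ Ioc u v, c n * e (t * (n : ℝ) ^ k + ξ * (n : ℝ))‖) :
    ∃ η : ℝ, V / (4 * (2 + Real.log N)) ≤ ‖smc c k N t η‖ := by
  obtain ⟨ξ, u, v, hv, hV2⟩ := h
  by_contra hcon
  push Not at hcon
  have hlog : 0 ≤ Real.log N := Real.log_nonneg (by exact_mod_cast hN)
  rcases le_total u v with huv | huv
  · rw [ioc_smc c k u v t ξ huv] at hV2
    have h1 := maxc c k N v t _ hN hv (fun η => (hcon η).le) ξ
    have h2 := maxc c k N u t _ hN (huv.trans hv) (fun η => (hcon η).le) ξ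
    have h3 : (2 + Real.log N) * (V / (4 * (2 + Real.log N))) = V / 4 := by
      field_simp
    rw [h3] at h1 h2
    have h4 := norm_sub_le (smc c k v t ξ) (smc c k u t ξ)
    linarith
  · rw [Finset.Ioc_eq_empty (by omega), Finset.sum_empty, norm_zero] at hV2
    linarith

/-- the number of bad multipliers -/
theorem Bad_le (c : ℕ → ℂ) (hc : ∀ n, ‖c n‖ ≤ 1) (s k N : ℕ) (hN : 1 ≤ N) (α β V : ℝ) (hV : 0 < V) (M R0 R1 : ℕ)
    (h0 : ((PP s N).filter (fun z => dl s k z.1 z.2 = 0)).card ≤ R0)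
    (h1 : ∀ d : ℤ, d ≠ 0 → d.natAbs ≤ s * N ^ k → ((PP s N).filter (fun z => dl s k z.1 z.2 = d)).card ≤ R1)
    (q : ℕ) (hq : 1 ≤ q) (a : ℤ) (hcop : IsCoprime a (q : ℤ)) (hα : |α - a / q| ≤ 1 / (q : ℝ) ^ 2) :
    ((Bad c k N M α β V).ncard : ℝ) ≤ (4 * (2 + Real.log N)) ^ (2 * s) * ((s : ℝ) * N + 1) *
      (3 * M * (R0 : ℝ) + 2 * (R1 : ℝ) *
        ((((s * N ^ k + 1 : ℕ) : ℝ) / q + 1) * (39 * M + 3 * q * (1 + Real.log q)))) / V ^ (2 * s) := by
  classical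
  have hlog : 0 ≤ Real.log N := Real.log_nonneg (by exact_mod_cast hN)
  set L : ℝ := 4 * (2 + Real.log N) with hL
  have hL0 : 0 < L := by positivity
  set B : Finset ℕ := (Icc 1 M).filter (fun m => m ∈ Bad c k N M α β V) with hB
  have hBB : Bad c k N M α β V = (B : Set ℕ) := by
    ext m
    rw [hB, Finset.mem_coe, Finset.mem_filter]
    constructor
    · intro h
      exact ⟨Finset.mem_coe.mp (Bad_sub c k N M α β V h), h⟩
    · intro h
      exact h.2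
  rw [hBB, Set.ncard_coe_finset, le_div_iff₀ (by positivity)]
  have h2 := (sum_Qc c hc s k N α β M).trans (group s k N α M R0 R1 h0 h1 q hq a hcop hα)
  have h3 : ∀ m ∈ B, V ^ (2 * s) ≤ L ^ (2 * s) * (((s : ℝ) * N + 1) * Qc c s k N (β + (m : ℝ) * α)) := by
    intro m hm
    rw [hB, Finset.mem_filter] at hm
    obtain ⟨η, hη⟩ := exists_big c k N hN (β + (m : ℝ) * α) V hV hm.2.2.2
    have h4 := supc c s k N (β + (m : ℝ) * α) η
    have h5 : V ≤ L * ‖smc c k N (β + (m : ℝ) * α) η‖ := by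
      rw [div_le_iff₀ hL0] at hη
      linarith
    have h6 := pow_le_pow_left₀ hV.le h5 (2 * s)
    rw [mul_pow] at h6
    exact h6.trans (mul_le_mul_of_nonneg_left h4 (by positivity))
  have h4 : (B.card : ℝ) * V ^ (2 * s) ≤ L ^ (2 * s) * (((s : ℝ) * N + 1) *
      ∑ j ∈ Icc 1 M, Qc c s k N (β + (j : ℝ) * α)) := by
    calc (B.card : ℝ) * V ^ (2 * s) = ∑ _m ∈ B, V ^ (2 * s) := by rw [Finset.sum_const, nsmul_eq_mul]
      _ ≤ ∑ m ∈ B, L ^ (2 * s) * (((s : ℝ) * N + 1) * Qc c s k N (β + (m : ℝ) * α)) := Finset.sum_le_sum h3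
      _ ≤ ∑ m ∈ Icc 1 M, L ^ (2 * s) * (((s : ℝ) * N + 1) * Qc c s k N (β + (m : ℝ) * α)) := by
          apply Finset.sum_le_sum_of_subset_of_nonneg (Finset.filter_subset _ _)
          intro m _ _
          have := Pool.Agent.Helper10K9.MWS.Qc_nonneg c s k N (β + (m : ℝ) * α)
          positivity
      _ = _ := by rw [← Finset.mul_sum, ← Finset.mul_sum]
  refine h4.trans ?_
  rw [mul_assoc (L ^ (2 * s))]
  apply mul_le_mul_of_nonneg_left _ (by positivity)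
  exact mul_le_mul_of_nonneg_left h2 (by positivity)

end Pool.Agent.Helper68K9.MW
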