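import Pool.Agent.Helper68K9.MW.Mul
import Pool.Agent.Helper10K9.MWS.Ind

/-! # multiplicities of the differences -/

set_option autoImplicit false

open Finset

namespace Pool.Agent.Helper68K9.MW

open Pool.Agent.TH181.MW (tup J prs ph AA LS mem_LS Lam Lam_zero Lam_nonzero)
open Pool.Agent.Helper10K9.MWS (dl)

theorem mem_PP (s N : ℕ) (z : (Fin s → ℕ) × (Fin s → ℕ)) (hz : z ∈ PP s N) :
    (∀ i, 1 ≤ z.1 i ∧ z.1 i ≤ N) ∧ (∀ i, 1 ≤ z.2 i ∧ z.2 i ≤ N) ∧ ∑ i, z.1 i = ∑ i, z.2 i := by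
  unfold PP Pool.Agent.TH181.MW.tup at hz
  rw [Finset.mem_filter, Finset.mem_product, Fintype.mem_piFinset, Fintype.mem_piFinset] at hz
  exact ⟨fun i => Finset.mem_Icc.mp (hz.1.1 i), fun i => Finset.mem_Icc.mp (hz.1.2 i), hz.2⟩

theorem card_two (k N : ℕ) (d : ℤ) :
    ((PP 2 N).filter (fun z => dl 2 k z.1 z.2 = d)).card ≤
      ((Lam N 2).filter (fun z => ph (fun n => n ^ k) z.1 z.2 = d)).card := by
  classical
  apply Finset.card_le_card_of_injOn (fun z => (⟨[(z.2 0 : ℤ) - z.1 0, (z.2 1 : ℤ) - z.1 0], (z.1 0 : ℤ)⟩ : Σ _ : List ℤ, ℤ))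
  · intro z hz
    rw [Finset.mem_coe, Finset.mem_filter] at hz
    obtain ⟨h1, h2⟩ := hz
    obtain ⟨h3, h4, h5⟩ := mem_PP 2 N z h1
    rw [Fin.sum_univ_two, Fin.sum_univ_two] at h5
    have a0 := h3 0
    have a1 := h3 1
    have b0 := h4 0
    have b1 := h4 1
    rw [Finset.mem_coe, Finset.mem_filter]
    constructor
    · unfold Pool.Agent.TH181.MW.Lam
      rw [Finset.mem_sigma]
      constructor
      · rw [mem_LS]
        refine ⟨rfl, ?_⟩
        intro h hh
        simp only [List.mem_cons, List.not_mem_nil, or_false] at hh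
        rw [Finset.mem_Icc]
        rcases hh with rfl | rfl <;> omega
      · simp only [Pool.Agent.TH181.MW.AA, Finset.mem_filter, Finset.mem_Icc]
        omega
    · simp only [Pool.Agent.TH181.MW.ph]
      unfold Pool.Agent.Helper10K9.MWS.dl at h2
      rw [Fin.sum_univ_two, Fin.sum_univ_two] at h2
      rw [← h2]
      have h6 : (z.1 0 : ℤ) + ((z.2 0 : ℤ) - z.1 0) + ((z.2 1 : ℤ) - z.1 0) = (z.1 1 : ℤ) := by omega
      have h7 : (z.1 0 : ℤ) + ((z.2 0 : ℤ) - z.1 0) = (z.2 0 : ℤ) := by ring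
      have h8 : (z.1 0 : ℤ) + ((z.2 1 : ℤ) - z.1 0) = (z.2 1 : ℤ) := by ring
      rw [h6, h7, h8]
      push_cast
      ring
  · intro z hz w hw h
    rw [Finset.mem_coe, Finset.mem_filter] at hz hw
    obtain ⟨_, _, h5⟩ := mem_PP 2 N z hz.1
    obtain ⟨_, _, h6⟩ := mem_PP 2 N w hw.1
    rw [Fin.sum_univ_two, Fin.sum_univ_two] at h5 h6
    simp only [Sigma.mk.injEq, List.cons.injEq, and_true, heq_eq_eq] at h
    obtain ⟨⟨h7, h8⟩, h9⟩ := h
    have e1 : z.1 0 = w.1 0 := by omega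
    have e2 : z.2 0 = w.2 0 := by omega
    have e3 : z.2 1 = w.2 1 := by omega
    have e4 : z.1 1 = w.1 1 := by omega
    apply Prod.ext
    · funext i
      fin_cases i
      · exact e1
      · exact e4
    · funext i
      fin_cases i
      · exact e2
      · exact e3

theorem two_zero (k N : ℕ) (hk : 3 ≤ k) :
    ((PP 2 N).filter (fun z => dl 2 k z.1 z.2 = 0)).card ≤ (2 + k) * (2 * N + 1) ^ 2 :=
  (card_two k N 0).trans (Lam_zero k N 2 (by omega))

theorem two_ne (k N D : ℕ) (hk : 3 ≤ k) (hD : ∀ n : ℕ, 1 ≤ n → n ≤ 2 * N ^ k → n.divisors.card ≤ D)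
    (d : ℤ) (hd : d ≠ 0) (hd2 : d.natAbs ≤ 2 * N ^ k) :
    ((PP 2 N).filter (fun z => dl 2 k z.1 z.2 = d)).card ≤ (2 * D) ^ 2 * k :=
  (card_two k N d).trans (Lam_nonzero k N 2 D (by omega) d hd
    (hD _ (by have := Int.natAbs_ne_zero.mpr hd; omega) hd2))

theorem shift_card {ι G : Type} [AddCommGroup G] [DecidableEq G] (T : Finset ι) (F : ι → G) (d : G) :
    ((T ×ˢ T).filter (fun z => F z.1 - F z.2 = d)).card ≤ ((T ×ˢ T).filter (fun z => F z.1 - F z.2 = 0)).card := by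
  classical
  set V : Finset G := T.image F ∪ T.image (fun z => F z - d) with hV
  set ρ : G → ℕ := fun v => (T.filter (fun z => F z = v)).card with hρ
  have h1 : ((T ×ˢ T).filter (fun z => F z.1 - F z.2 = d)).card = ∑ v ∈ V, ρ (v + d) * ρ v := by
    rw [Finset.card_eq_sum_card_fiberwise (t := V) (f := fun z => F z.2)]
    · apply Finset.sum_congr rfl
      intro v _
      rw [hρ]
      simp only
      rw [← Finset.card_product]
      congr 1
      ext z
      simp only [Finset.mem_filter, Finset.mem_product]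
      constructor
      · rintro ⟨⟨⟨h1, h2⟩, h3⟩, h4⟩
        refine ⟨⟨h1, ?_⟩, h2, h4⟩
        rw [← h4, ← h3]; abel
      · rintro ⟨⟨h1, h2⟩, h3, h4⟩
        refine ⟨⟨⟨h1, h3⟩, ?_⟩, h4⟩
        rw [h2, h4]; abel
    · intro z hz
      rw [Finset.mem_coe, Finset.mem_filter, Finset.mem_product] at hz
      rw [Finset.mem_coe, hV, Finset.mem_union]
      left
      exact Finset.mem_image_of_mem _ hz.1.2
  have h2 : ((T ×ˢ T).filter (fun z => F z.1 - F z.2 = 0)).card = ∑ v ∈ V, ρ v * ρ v := by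
    rw [Finset.card_eq_sum_card_fiberwise (t := V) (f := fun z => F z.2)]
    · apply Finset.sum_congr rfl
      intro v _
      rw [hρ]
      simp only
      rw [← Finset.card_product]
      congr 1
      ext z
      simp only [Finset.mem_filter, Finset.mem_product]
      constructor
      · rintro ⟨⟨⟨h1, h2⟩, h3⟩, h4⟩
        refine ⟨⟨h1, ?_⟩, h2, h4⟩
        rw [← h4]; exact sub_eq_zero.mp h3
      · rintro ⟨⟨h1, h2⟩, h3, h4⟩
        refine ⟨⟨⟨h1, h3⟩, ?_⟩, h4⟩
        rw [h2, h4]; abel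
    · intro z hz
      rw [Finset.mem_coe, Finset.mem_filter, Finset.mem_product] at hz
      rw [Finset.mem_coe, hV, Finset.mem_union]
      left
      exact Finset.mem_image_of_mem _ hz.1.2
  have h3 : ((T ×ˢ T).filter (fun z => F z.1 - F z.2 = 0)).card = ∑ v ∈ V, ρ (v + d) * ρ (v + d) := by
    rw [Finset.card_eq_sum_card_fiberwise (t := V) (f := fun z => F z.2 - d)]
    · apply Finset.sum_congr rfl
      intro v _
      rw [hρ]
      simp only
      rw [← Finset.card_product]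
      congr 1
      ext z
      simp only [Finset.mem_filter, Finset.mem_product]
      constructor
      · rintro ⟨⟨⟨h1, h2⟩, h3⟩, h4⟩
        have h5 : F z.2 = v + d := by rw [← h4]; abel
        exact ⟨⟨h1, (sub_eq_zero.mp h3).trans h5⟩, h2, h5⟩
      · rintro ⟨⟨h1, h2⟩, h3, h4⟩
        refine ⟨⟨⟨h1, h3⟩, ?_⟩, ?_⟩
        · rw [h2, h4]; abel
        · rw [h4]; abel
    · intro z hz
      rw [Finset.mem_coe, Finset.mem_filter, Finset.mem_product] at hz
      rw [Finset.mem_coe, hV, Finset.mem_union]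
      right
      exact Finset.mem_image_of_mem (fun z => F z - d) hz.1.2
  have h4 : 2 * ((T ×ˢ T).filter (fun z => F z.1 - F z.2 = d)).card ≤
      ((T ×ˢ T).filter (fun z => F z.1 - F z.2 = 0)).card + ((T ×ˢ T).filter (fun z => F z.1 - F z.2 = 0)).card := by
    nth_rewrite 1 [h3]
    rw [h1, h2, Finset.mul_sum, ← Finset.sum_add_distrib]
    apply Finset.sum_le_sum
    intro v _
    have := Nat.mul_self_le_mul_self (Nat.le_refl 0)
    nlinarith [sq_nonneg ((ρ (v + d) : ℤ) - (ρ v : ℤ))]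
  omega

theorem J_shift (s k N : ℕ) (d : ℤ) : ((PP s N).filter (fun z => dl s k z.1 z.2 = d)).card ≤ J s k N := by
  classical
  have h1 := shift_card (tup s N) (fun z => (((∑ i, z i : ℕ) : ℤ), ((∑ i, z i ^ k : ℕ) : ℤ))) ((0, d) : ℤ × ℤ)
  have h2 : (PP s N).filter (fun z => dl s k z.1 z.2 = d) = ((tup s N) ×ˢ (tup s N)).filter
      (fun z => ((((∑ i, z.1 i : ℕ) : ℤ), ((∑ i, z.1 i ^ k : ℕ) : ℤ)) : ℤ × ℤ) -
        (((∑ i, z.2 i : ℕ) : ℤ), ((∑ i, z.2 i ^ k : ℕ) : ℤ)) = (0, d)) := by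
    ext z
    unfold PP Pool.Agent.Helper10K9.MWS.dl
    rw [Finset.mem_filter, Finset.mem_filter, Finset.mem_filter, Prod.mk_sub_mk, Prod.mk.injEq]
    constructor
    · rintro ⟨⟨h3, h4⟩, h5⟩
      exact ⟨h3, by rw [h4]; exact sub_self _, h5⟩
    · rintro ⟨h3, h4, h5⟩
      exact ⟨⟨h3, by exact_mod_cast sub_eq_zero.mp h4⟩, h5⟩
  have h3 : J s k N = (((tup s N) ×ˢ (tup s N)).filter
      (fun z => ((((∑ i, z.1 i : ℕ) : ℤ), ((∑ i, z.1 i ^ k : ℕ) : ℤ)) : ℤ × ℤ) -
        (((∑ i, z.2 i : ℕ) : ℤ), ((∑ i, z.2 i ^ k : ℕ) : ℤ)) = 0)).card := by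
    unfold Pool.Agent.TH181.MW.J
    congr 1
    ext z
    rw [Finset.mem_filter, Finset.mem_filter, Prod.mk_sub_mk, Prod.mk_eq_zero]
    constructor
    · rintro ⟨h3, h4, h5⟩
      exact ⟨h3, by rw [h4]; exact sub_self _, by rw [h5]; exact sub_self _⟩
    · rintro ⟨h3, h4, h5⟩
      exact ⟨h3, by exact_mod_cast sub_eq_zero.mp h4, by exact_mod_cast sub_eq_zero.mp h5⟩
  rw [h2, h3]
  exact h1

end Pool.Agent.Helper68K9.MW
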