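import Pool.Agent.Helper68K9.MW.Mul2

/-! # the number of bad multipliers -/

set_option autoImplicit false

open Finset

namespace Pool.Agent.Helper68K9.MW

open Pool.Agent.TH181.MW (tup J prs)
open Pool.Agent.Helper10K9.MWS (dl div_bd hua)

theorem log_pow (s : ℕ) (ε : ℝ) (hε : 0 < ε) : ∃ C : ℝ, 0 < C ∧ ∀ N : ℕ, 1 ≤ N →
    (4 * (2 + Real.log N)) ^ (2 * s) ≤ C * (N : ℝ) ^ ε := by
  obtain ⟨C, hC, h⟩ := Pool.Agent.TH181.MX.log_le (ε / (2 * s + 1)) (by positivity)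
  refine ⟨(8 * C) ^ (2 * s), by positivity, fun N hN => ?_⟩
  have hN' : (1 : ℝ) ≤ N := by exact_mod_cast hN
  have hlog : 0 ≤ Real.log N := Real.log_nonneg hN'
  have h1 : 4 * (2 + Real.log N) ≤ 8 * C * (N : ℝ) ^ (ε / (2 * s + 1)) := by
    have := h N hN
    nlinarith
  have h2 := pow_le_pow_left₀ (by positivity) h1 (2 * s)
  refine h2.trans ?_
  rw [mul_pow]
  apply mul_le_mul_of_nonneg_left _ (by positivity)
  rw [← Real.rpow_natCast, ← Real.rpow_mul (by positivity)]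
  apply Real.rpow_le_rpow_of_exponent_le hN'
  push_cast
  rw [div_mul_eq_mul_div, div_le_iff₀ (by positivity)]
  nlinarith

theorem four (k : ℕ) (hk : 3 ≤ k) (ε : ℝ) (hε : 0 < ε) : ∃ C : ℝ, 0 < C ∧ ∀ N : ℕ, 1 ≤ N →
    ∀ c : ℕ → ℂ, (∀ n, ‖c n‖ ≤ 1) → ∀ α β : ℝ, ∀ q : ℕ, 1 ≤ q → ∀ a : ℤ, IsCoprime a (q : ℤ) →
    |α - a / q| ≤ 1 / (q : ℝ) ^ 2 → ∀ M : ℕ, ∀ V : ℝ, 0 < V →
    ((Bad c k N M α β V).ncard : ℝ) ≤ C * (N : ℝ) ^ ε * (1 + Real.log q) *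
      ((N : ℝ) ^ 3 * M + (N : ℝ) ^ (k + 1) * M / q + (N : ℝ) ^ (k + 1) + (N : ℝ) * q) / V ^ 4 := by
  obtain ⟨C1, hC1, h1⟩ := div_bd 2 (by norm_num) k 2 (ε / 2) (by positivity)
  obtain ⟨C2, hC2, h2⟩ := log_pow 2 (ε / 2) (by positivity)
  refine ⟨3 * C2 * (27 * (2 + k) + 234 * k * C1), by positivity, ?_⟩
  intro N hN c hc α β q hq a hcop hα M V hV
  have hN' : (1 : ℝ) ≤ N := by exact_mod_cast hN
  have hN0 : (0 : ℝ) < N := by linarith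
  have hq' : (1 : ℝ) ≤ q := by exact_mod_cast hq
  have hq0 : (0 : ℝ) < q := by linarith
  have hG : 0 ≤ Real.log q := Real.log_nonneg hq'
  have hk0 : (0 : ℝ) ≤ k := by positivity
  have hM0 : (0 : ℝ) ≤ M := by positivity
  obtain ⟨D, hD1, hD2⟩ := h1 N hN
  have h3 := Bad_le c hc 2 k N hN α β V hV M ((2 + k) * (2 * N + 1) ^ 2) ((2 * D) ^ 2 * k)
    (two_zero k N hk) (fun d hd hd2 => two_ne k N D hk (fun n hn hn2 => hD1 n hn (by exact_mod_cast hn2)) d hd hd2)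
    q hq a hcop hα
  refine h3.trans ?_
  have h4 := h2 N hN
  rw [show 2 * 2 = 4 by norm_num] at h4 ⊢
  apply div_le_div_of_nonneg_right _ (by positivity)
  set G : ℝ := 1 + Real.log q with hGdef
  have hG1 : 1 ≤ G := by rw [hGdef]; linarith
  set P : ℝ := (N : ℝ) ^ (ε / 2) with hP
  have hP1 : 1 ≤ P := Real.one_le_rpow hN' (by positivity)
  have hPP : (N : ℝ) ^ ε = P * P := by
    rw [hP, ← Real.rpow_add hN0]; congr 1; ring
  have hNk : (1 : ℝ) ≤ (N : ℝ) ^ k := one_le_pow₀ hN'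
  have e1 : ((2 : ℕ) : ℝ) * N + 1 ≤ 3 * N := by push_cast; linarith
  have e2 : 3 * (M : ℝ) * (((2 + k) * (2 * N + 1) ^ 2 : ℕ) : ℝ) ≤ 27 * (2 + k) * ((N : ℝ) ^ 2 * M) := by
    push_cast
    have : (2 * (N : ℝ) + 1) ^ 2 ≤ 9 * (N : ℝ) ^ 2 := by nlinarith
    calc 3 * (M : ℝ) * ((2 + k) * (2 * (N : ℝ) + 1) ^ 2) ≤ 3 * (M : ℝ) * ((2 + k) * (9 * (N : ℝ) ^ 2)) := by gcongr
      _ = _ := by ring
  have e3 : ((2 * N ^ k + 1 : ℕ) : ℝ) / q + 1 ≤ 3 * ((N : ℝ) ^ k / q + 1) := by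
    have : ((2 * N ^ k + 1 : ℕ) : ℝ) ≤ 3 * (N : ℝ) ^ k := by push_cast; linarith
    have h5 : ((2 * N ^ k + 1 : ℕ) : ℝ) / q ≤ 3 * (N : ℝ) ^ k / q := div_le_div_of_nonneg_right this hq0.le
    have h6 : 3 * (N : ℝ) ^ k / q = 3 * ((N : ℝ) ^ k / q) := by ring
    linarith
  have e4 : 39 * (M : ℝ) + 3 * q * G ≤ 39 * G * (M + q) := by
    nlinarith [mul_nonneg hM0 (by linarith : (0 : ℝ) ≤ G - 1), mul_nonneg hq0.le (by linarith : (0 : ℝ) ≤ G)]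
  have e5 : 2 * ((((2 * D) ^ 2 * k : ℕ) : ℝ)) ≤ 2 * (C1 * P * k) := by
    push_cast
    have := mul_le_mul_of_nonneg_right hD2 hk0
    linarith
  have e6 : ((N : ℝ) ^ k / q + 1) * (M + q) = (N : ℝ) ^ k * M / q + (N : ℝ) ^ k + M + q := by
    field_simp
    ring
  set X : ℝ := (N : ℝ) ^ 2 * M + (N : ℝ) ^ k * M / q + (N : ℝ) ^ k + q with hX
  have hMX : (N : ℝ) ^ k * M / q + (N : ℝ) ^ k + M + q ≤ X := by
    have : (M : ℝ) ≤ (N : ℝ) ^ 2 * M := by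
      have : (1 : ℝ) ≤ (N : ℝ) ^ 2 := one_le_pow₀ hN'
      nlinarith
    rw [hX]; linarith
  have hX0 : 0 ≤ X := by positivity
  have hNX : (N : ℝ) ^ 2 * M ≤ X := by
    rw [hX]
    have : 0 ≤ (N : ℝ) ^ k * M / q + (N : ℝ) ^ k + q := by positivity
    linarith
  have e7 : 3 * (M : ℝ) * (((2 + k) * (2 * N + 1) ^ 2 : ℕ) : ℝ) + 2 * ((((2 * D) ^ 2 * k : ℕ) : ℝ)) *
      ((((2 * N ^ k + 1 : ℕ) : ℝ) / q + 1) * (39 * M + 3 * q * G)) ≤
      (27 * (2 + k) + 234 * k * C1) * P * G * X := by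
    calc 3 * (M : ℝ) * (((2 + k) * (2 * N + 1) ^ 2 : ℕ) : ℝ) + 2 * ((((2 * D) ^ 2 * k : ℕ) : ℝ)) *
        ((((2 * N ^ k + 1 : ℕ) : ℝ) / q + 1) * (39 * M + 3 * q * G))
        ≤ 27 * (2 + k) * ((N : ℝ) ^ 2 * M) + 2 * (C1 * P * k) *
          ((3 * ((N : ℝ) ^ k / q + 1)) * (39 * G * (M + q))) := by
            apply add_le_add e2
            apply mul_le_mul e5 _ (by positivity) (by positivity)
            exact mul_le_mul e3 e4 (by positivity) (by positivity)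
      _ = 27 * (2 + k) * ((N : ℝ) ^ 2 * M) + 234 * k * C1 * P * G * (((N : ℝ) ^ k / q + 1) * (M + q)) := by ring
      _ ≤ 27 * (2 + k) * X + 234 * k * C1 * P * G * X := by
            rw [e6]
            apply add_le_add
            · exact mul_le_mul_of_nonneg_left hNX (by positivity)
            · exact mul_le_mul_of_nonneg_left hMX (by positivity)
      _ ≤ 27 * (2 + k) * (P * G * X) + 234 * k * C1 * P * G * X := by
            have : X ≤ P * G * X := by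
              have : 1 ≤ P * G := one_le_mul_of_one_le_of_one_le hP1 hG1
              nlinarith
            gcongr
      _ = _ := by ring
  have hY : (N : ℝ) ^ 3 * M + (N : ℝ) ^ (k + 1) * M / q + (N : ℝ) ^ (k + 1) + (N : ℝ) * q = N * X := by
    rw [hX]; ring
  rw [hY, hPP]
  calc (4 * (2 + Real.log N)) ^ 4 * (((2 : ℕ) : ℝ) * N + 1) *
      (3 * (M : ℝ) * (((2 + k) * (2 * N + 1) ^ 2 : ℕ) : ℝ) + 2 * ((((2 * D) ^ 2 * k : ℕ) : ℝ)) *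
      ((((2 * N ^ k + 1 : ℕ) : ℝ) / q + 1) * (39 * M + 3 * q * G)))
      ≤ (C2 * P) * (3 * N) * ((27 * (2 + k) + 234 * k * C1) * P * G * X) := by
        apply mul_le_mul _ e7 (by positivity) (by positivity)
        exact mul_le_mul h4 e1 (by positivity) (by positivity)
    _ = _ := by ring

theorem gen (k j : ℕ) (hj : 2 ≤ j) (hjk : j ≤ k) (ε : ℝ) (hε : 0 < ε) : ∃ C : ℝ, 0 < C ∧ ∀ N : ℕ, 1 ≤ N →
    ∀ c : ℕ → ℂ, (∀ n, ‖c n‖ ≤ 1) → ∀ α β : ℝ, ∀ q : ℕ, 1 ≤ q → ∀ a : ℤ, IsCoprime a (q : ℤ) →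
    |α - a / q| ≤ 1 / (q : ℝ) ^ 2 → ∀ M : ℕ, ∀ V : ℝ, 0 < V →
    ((Bad c k N M α β V).ncard : ℝ) ≤ C * (N : ℝ) ^ ((2 : ℝ) ^ j + 2 - j + ε) * (1 + Real.log q) *
      (M + (N : ℝ) ^ k * M / q + (N : ℝ) ^ k + q) / V ^ (2 ^ j + 2) := by
  obtain ⟨r, rfl⟩ : ∃ r, j = r + 2 := ⟨j - 2, by omega⟩
  set s : ℕ := 2 ^ (r + 1) + 1 with hs
  have hs2 : 2 * s = 2 ^ (r + 2) + 2 := by rw [hs, pow_succ 2 (r + 1)]; ring
  obtain ⟨C1, hC1, h1⟩ := hua k (by omega) r (by omega) (ε / 2) (by positivity)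
  obtain ⟨C2, hC2, h2⟩ := log_pow s (ε / 2) (by positivity)
  refine ⟨C2 * (s + 1) * (3 + 78 * (s + 1)) * C1, by positivity, ?_⟩
  intro N hN c hc α β q hq a hcop hα M V hV
  have hN' : (1 : ℝ) ≤ N := by exact_mod_cast hN
  have hN0 : (0 : ℝ) < N := by linarith
  have hq' : (1 : ℝ) ≤ q := by exact_mod_cast hq
  have hq0 : (0 : ℝ) < q := by linarith
  have hG : 0 ≤ Real.log q := Real.log_nonneg hq'
  have hM0 : (0 : ℝ) ≤ M := by positivity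
  have h3 := Bad_le c hc s k N hN α β V hV M (J s k N) (J s k N)
    (J_shift s k N 0) (fun d _ _ => J_shift s k N d) q hq a hcop hα
  refine h3.trans ?_
  have h4 := h2 N hN
  rw [hs2] at h4 ⊢
  apply div_le_div_of_nonneg_right _ (by positivity)
  have h5 := h1 N hN
  set G : ℝ := 1 + Real.log q with hGdef
  have hG1 : 1 ≤ G := by rw [hGdef]; linarith
  have hNk : (1 : ℝ) ≤ (N : ℝ) ^ k := one_le_pow₀ hN'
  have hs0 : (1 : ℝ) ≤ s := by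
    have : 1 ≤ s := by omega
    exact_mod_cast this
  have e1 : (s : ℝ) * N + 1 ≤ (s + 1) * N := by nlinarith
  have e3 : ((s * N ^ k + 1 : ℕ) : ℝ) / q + 1 ≤ (s + 1) * ((N : ℝ) ^ k / q + 1) := by
    have : ((s * N ^ k + 1 : ℕ) : ℝ) ≤ (s + 1) * (N : ℝ) ^ k := by push_cast; nlinarith
    have h5 : ((s * N ^ k + 1 : ℕ) : ℝ) / q ≤ (s + 1) * (N : ℝ) ^ k / q := div_le_div_of_nonneg_right this hq0.le
    have h6 : (s + 1) * (N : ℝ) ^ k / q = (s + 1) * ((N : ℝ) ^ k / q) := by ring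
    linarith
  have e4 : 39 * (M : ℝ) + 3 * q * G ≤ 39 * G * (M + q) := by
    nlinarith [mul_nonneg hM0 (by linarith : (0 : ℝ) ≤ G - 1), mul_nonneg hq0.le (by linarith : (0 : ℝ) ≤ G)]
  have e6 : ((N : ℝ) ^ k / q + 1) * (M + q) = M + (N : ℝ) ^ k * M / q + (N : ℝ) ^ k + q := by
    field_simp
    ring
  set X : ℝ := M + (N : ℝ) ^ k * M / q + (N : ℝ) ^ k + q with hX
  have hX0 : 0 ≤ X := by positivity
  have hMX : (M : ℝ) ≤ X := by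
    rw [hX]
    have : 0 ≤ (N : ℝ) ^ k * M / q + (N : ℝ) ^ k + q := by positivity
    linarith
  set Jr : ℝ := (J s k N : ℝ) with hJr
  have hJ0 : 0 ≤ Jr := by positivity
  have e7 : 3 * (M : ℝ) * Jr + 2 * Jr * ((((s * N ^ k + 1 : ℕ) : ℝ) / q + 1) * (39 * M + 3 * q * G)) ≤
      (3 + 78 * (s + 1)) * Jr * G * X := by
    calc 3 * (M : ℝ) * Jr + 2 * Jr * ((((s * N ^ k + 1 : ℕ) : ℝ) / q + 1) * (39 * M + 3 * q * G))
        ≤ 3 * X * Jr + 2 * Jr * (((s + 1) * ((N : ℝ) ^ k / q + 1)) * (39 * G * (M + q))) := by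
            apply add_le_add
            · gcongr
            · apply mul_le_mul_of_nonneg_left _ (by positivity)
              exact mul_le_mul e3 e4 (by positivity) (by positivity)
      _ = 3 * X * Jr + 78 * (s + 1) * Jr * G * (((N : ℝ) ^ k / q + 1) * (M + q)) := by ring
      _ = 3 * (Jr * X) + 78 * (s + 1) * Jr * G * X := by rw [e6]; ring
      _ ≤ 3 * (Jr * X * G) + 78 * (s + 1) * Jr * G * X := by
            have : Jr * X ≤ Jr * X * G := by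
              have : 0 ≤ Jr * X := by positivity
              nlinarith
            linarith
      _ = _ := by ring
  calc (4 * (2 + Real.log N)) ^ (2 ^ (r + 2) + 2) * ((s : ℝ) * N + 1) *
      (3 * (M : ℝ) * Jr + 2 * Jr * ((((s * N ^ k + 1 : ℕ) : ℝ) / q + 1) * (39 * M + 3 * q * G)))
      ≤ (C2 * (N : ℝ) ^ (ε / 2)) * ((s + 1) * N) * ((3 + 78 * (s + 1)) * Jr * G * X) := by
        apply mul_le_mul _ e7 (by positivity) (by positivity)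
        exact mul_le_mul h4 e1 (by positivity) (by positivity)
    _ ≤ (C2 * (N : ℝ) ^ (ε / 2)) * ((s + 1) * N) * ((3 + 78 * (s + 1)) *
          (C1 * (N : ℝ) ^ ((2 : ℝ) ^ (r + 2) - r - 1 + ε / 2)) * G * X) := by
        gcongr
    _ = C2 * (s + 1) * (3 + 78 * (s + 1)) * C1 *
        ((N : ℝ) ^ (ε / 2) * (N : ℝ) ^ (1 : ℝ) * (N : ℝ) ^ ((2 : ℝ) ^ (r + 2) - r - 1 + ε / 2)) * G * X := by
        rw [Real.rpow_one]; ring
    _ = _ := by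
        rw [← Real.rpow_add hN0, ← Real.rpow_add hN0]
        congr 4
        push_cast
        ring

/-- at the point `t` and the length `N` the inequality with exponent `η` fails for some `ξ`, `a`, `q` -/
def Fl (c : ℕ → ℂ) (k : ℕ) (η ε : ℝ) (N : ℕ) (t : ℝ) : Prop :=
  ∃ (ξ : ℝ) (a q : ℕ), 1 ≤ a ∧ a < q ∧ q ≤ N ∧ Nat.Coprime a q ∧ |t - (a : ℝ) / (q : ℝ)| ≤ 1 / (q : ℝ) ^ 2 ∧
    (N : ℝ) ^ (1 + ε) * (1 / (q : ℝ) + 1 / (N : ℝ) + (q : ℝ) / (N : ℝ) ^ k) ^ η <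
      ‖∑ n ∈ Icc 1 N, c n * Pool.Agent.W928.MW.e (t * (n : ℝ) ^ k + ξ * (n : ℝ))‖

/-- all scales at once -/
theorem scales (c : ℕ → ℂ) (k M : ℕ) (α β : ℝ) (p : ℕ) (A ε η K : ℝ) (N0 N : ℕ) (hN0 : 1 ≤ N0)
    (hη : 0 ≤ η) (hη1 : η ≤ 1) (hε : 0 < ε) (hK : 0 ≤ K)
    (h : ∀ X : ℕ, N0 ≤ X → X ≤ N → ∀ V : ℝ, 0 < V →
      ((Bad c k (2 * X) M α β V).ncard : ℝ) ≤ K * (X : ℝ) ^ (A + ε) / V ^ p)
    (γ : ℝ) (hγ : γ = p * (1 + ε - η) - A - ε) (hγ0 : 0 < γ) :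
    (({m : ℕ | 1 ≤ m ∧ m ≤ M ∧ ∃ X : ℕ, N0 ≤ X ∧ X ≤ N ∧ Fl c k η ε X (β + (m : ℝ) * α)}.ncard : ℕ) : ℝ) ≤
      K / (1 - (2 : ℝ) ^ (-γ)) * (N0 : ℝ) ^ (-γ) := by
  classical
  set I : Finset ℕ := (range (N + 1)).filter (fun i => N0 * 2 ^ i ≤ N) with hI
  have hN0' : (1 : ℝ) ≤ N0 := by exact_mod_cast hN0
  have hsub : {m : ℕ | 1 ≤ m ∧ m ≤ M ∧ ∃ X : ℕ, N0 ≤ X ∧ X ≤ N ∧ Fl c k η ε X (β + (m : ℝ) * α)} ⊆
      ⋃ i ∈ I, Bad c k (2 * (N0 * 2 ^ i)) M α β (((N0 * 2 ^ i : ℕ) : ℝ) ^ (1 + ε - η)) := by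
    intro m hm
    obtain ⟨hm1, hm2, X, hX1, hX2, ξ, a, q, ha, haq, hqX, _, _, hbig⟩ := hm
    rw [Set.mem_iUnion₂]
    set i : ℕ := Nat.log 2 (X / N0) with hi
    have hX0 : 1 ≤ X / N0 := (Nat.one_le_div_iff (by omega)).mpr hX1
    have h1 : 2 ^ i ≤ X / N0 := Nat.pow_log_le_self 2 (by omega)
    have h2 : X / N0 < 2 ^ (i + 1) := Nat.lt_pow_succ_log_self (by norm_num) _
    have h3 : N0 * 2 ^ i ≤ X := by
      have := (Nat.le_div_iff_mul_le (by omega)).mp h1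
      linarith [mul_comm N0 (2 ^ i)]
    have h4 : X < 2 * (N0 * 2 ^ i) := by
      have := (Nat.div_lt_iff_lt_mul (by omega)).mp h2
      rw [pow_succ] at this
      nlinarith
    have hiI : i ∈ I := by
      rw [hI, Finset.mem_filter, Finset.mem_range]
      refine ⟨?_, by omega⟩
      have : i < 2 ^ i := Nat.lt_two_pow_self
      have : 2 ^ i ≤ N0 * 2 ^ i := Nat.le_mul_of_pos_left _ (by omega)
      omega
    refine ⟨i, hiI, hm1, hm2, ξ, 0, X, h4.le, ?_⟩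
    have h5 : Ioc 0 X = Icc 1 X := by
      ext n; simp only [Finset.mem_Icc, Finset.mem_Ioc]; omega
    rw [h5]
    refine le_trans ?_ hbig.le
    have hX1r : (1 : ℝ) ≤ (X : ℝ) := by
      have : 1 ≤ X := by omega
      exact_mod_cast this
    have hX0r : (0 : ℝ) < (X : ℝ) := by linarith
    have hq0 : (0 : ℝ) < q := by
      have : 0 < q := by omega
      exact_mod_cast this
    have hqXr : (q : ℝ) ≤ X := by exact_mod_cast hqX
    have h6 : ((N0 * 2 ^ i : ℕ) : ℝ) ^ (1 + ε - η) ≤ (X : ℝ) ^ (1 + ε - η) := by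
      apply Real.rpow_le_rpow (by positivity) _ (by linarith)
      exact_mod_cast h3
    refine h6.trans ?_
    have h7 : (X : ℝ) ^ (1 + ε - η) = (X : ℝ) ^ (1 + ε) * ((X : ℝ)⁻¹) ^ η := by
      rw [Real.inv_rpow hX0r.le, ← Real.rpow_neg hX0r.le, ← Real.rpow_add hX0r]
      congr 1
    rw [h7]
    apply mul_le_mul_of_nonneg_left _ (by positivity)
    apply Real.rpow_le_rpow (by positivity) _ hη
    have h8 : (X : ℝ)⁻¹ ≤ 1 / (q : ℝ) := by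
      rw [inv_eq_one_div]
      exact one_div_le_one_div_of_le hq0 hqXr
    have h9 : 0 ≤ 1 / (X : ℝ) + (q : ℝ) / (X : ℝ) ^ k := by positivity
    linarith
  have hfin : ∀ i ∈ I, (Bad c k (2 * (N0 * 2 ^ i)) M α β (((N0 * 2 ^ i : ℕ) : ℝ) ^ (1 + ε - η))).Finite :=
    fun i _ => (Finset.finite_toSet _).subset (Bad_sub _ _ _ _ _ _ _)
  have h1 : ({m : ℕ | 1 ≤ m ∧ m ≤ M ∧ ∃ X : ℕ, N0 ≤ X ∧ X ≤ N ∧ Fl c k η ε X (β + (m : ℝ) * α)}.ncard) ≤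
      ∑ i ∈ I, (Bad c k (2 * (N0 * 2 ^ i)) M α β (((N0 * 2 ^ i : ℕ) : ℝ) ^ (1 + ε - η))).ncard := by
    refine (Set.ncard_le_ncard hsub ?_).trans (Finset.set_ncard_biUnion_le I _)
    exact Set.Finite.biUnion (Finset.finite_toSet I) hfin
  have hr0 : 0 < (2 : ℝ) ^ (-γ) := by positivity
  have hr1 : (2 : ℝ) ^ (-γ) < 1 := Real.rpow_lt_one_of_one_lt_of_neg (by norm_num) (by linarith)
  have h2 : ∀ i ∈ I, ((Bad c k (2 * (N0 * 2 ^ i)) M α β (((N0 * 2 ^ i : ℕ) : ℝ) ^ (1 + ε - η))).ncard : ℝ) ≤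
      K * (N0 : ℝ) ^ (-γ) * ((2 : ℝ) ^ (-γ)) ^ i := by
    intro i hi
    rw [hI, Finset.mem_filter] at hi
    have hX1 : N0 ≤ N0 * 2 ^ i := Nat.le_mul_of_pos_right _ (by positivity)
    have hXr : (0 : ℝ) < ((N0 * 2 ^ i : ℕ) : ℝ) := by
      have : 0 < N0 * 2 ^ i := by positivity
      exact_mod_cast this
    refine (h (N0 * 2 ^ i) hX1 hi.2 _ (by positivity)).trans (le_of_eq ?_)
    rw [mul_div_assoc, ← Real.rpow_natCast (((N0 * 2 ^ i : ℕ) : ℝ) ^ (1 + ε - η)) p, ← Real.rpow_mul hXr.le,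
      ← Real.rpow_sub hXr, mul_assoc]
    congr 1
    have h3 : A + ε - (1 + ε - η) * (p : ℝ) = -γ := by rw [hγ]; ring
    rw [h3]
    push_cast
    rw [Real.mul_rpow (by positivity) (by positivity)]
    congr 1
    rw [← Real.rpow_natCast, ← Real.rpow_mul (by norm_num), ← Real.rpow_natCast, ← Real.rpow_mul (by norm_num)]
    congr 1
    ring
  calc (({m : ℕ | 1 ≤ m ∧ m ≤ M ∧ ∃ X : ℕ, N0 ≤ X ∧ X ≤ N ∧ Fl c k η ε X (β + (m : ℝ) * α)}.ncard : ℕ) : ℝ)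
      ≤ ∑ i ∈ I, ((Bad c k (2 * (N0 * 2 ^ i)) M α β (((N0 * 2 ^ i : ℕ) : ℝ) ^ (1 + ε - η))).ncard : ℝ) := by
        exact_mod_cast h1
    _ ≤ ∑ i ∈ I, K * (N0 : ℝ) ^ (-γ) * ((2 : ℝ) ^ (-γ)) ^ i := Finset.sum_le_sum h2
    _ ≤ ∑ i ∈ range (N + 1), K * (N0 : ℝ) ^ (-γ) * ((2 : ℝ) ^ (-γ)) ^ i := by
        apply Finset.sum_le_sum_of_subset_of_nonneg (Finset.filter_subset _ _)
        intro i _ _
        positivity
    _ = K * (N0 : ℝ) ^ (-γ) * ∑ i ∈ range (N + 1), ((2 : ℝ) ^ (-γ)) ^ i := by rw [Finset.mul_sum]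
    _ ≤ K * (N0 : ℝ) ^ (-γ) * (1 - (2 : ℝ) ^ (-γ))⁻¹ := by
        apply mul_le_mul_of_nonneg_left _ (by positivity)
        have := (summable_geometric_of_lt_one hr0.le hr1).sum_le_tsum (range (N + 1)) (fun i _ => by positivity)
        rwa [tsum_geometric_of_lt_one hr0.le hr1] at this
    _ = _ := by
        rw [div_eq_mul_inv]; ring

end Pool.Agent.Helper68K9.MW
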