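import Pool.Agent.Helper68K9.MW.Mul3

/-! # the inequality with exponent `η` at almost all points of a progression -/

set_option autoImplicit false

open Finset

namespace Pool.Agent.Helper68K9.MW

theorem mont4 (k : ℕ) (hk : 3 ≤ k) (η ε : ℝ) (hη : 0 ≤ η) (hη1 : η ≤ 1 / 4) (hε : 0 < ε) : ∃ C : ℝ, 0 < C ∧
    ∀ N0 N : ℕ, 1 ≤ N0 → N0 ≤ N →
    ∀ c : ℕ → ℂ, (∀ n, ‖c n‖ ≤ 1) → ∀ α β : ℝ, ∀ q : ℕ, 1 ≤ q → ∀ a : ℤ, IsCoprime a (q : ℤ) →
    |α - a / q| ≤ 1 / (q : ℝ) ^ 2 → ∀ M : ℕ, N ^ (k - 2) ≤ q → N ^ (k - 2) ≤ M → q ≤ N0 ^ 2 * M →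
    (({m : ℕ | 1 ≤ m ∧ m ≤ M ∧ ∃ X : ℕ, N0 ≤ X ∧ X ≤ N ∧ Fl c k η ε X (β + (m : ℝ) * α)}.ncard : ℕ) : ℝ) ≤
      C * (1 + Real.log q) * M * (N0 : ℝ) ^ (-(1 - 4 * η + 3 * ε)) := by
  obtain ⟨C, hC, h⟩ := four k hk ε hε
  set γ : ℝ := 1 - 4 * η + 3 * ε with hγ
  have hγ0 : 0 < γ := by rw [hγ]; linarith
  have hr1 : (2 : ℝ) ^ (-γ) < 1 := Real.rpow_lt_one_of_one_lt_of_neg (by norm_num) (by linarith)
  have hr2 : 0 < 1 - (2 : ℝ) ^ (-γ) := by linarith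
  refine ⟨C * 2 ^ ε * (2 ^ (k + 1) * 4) / (1 - (2 : ℝ) ^ (-γ)), by positivity, ?_⟩
  intro N0 N hN0 hN0N c hc α β q hq a hcop hα M hNq hNM hqM
  have hq' : (1 : ℝ) ≤ q := by exact_mod_cast hq
  have hq0 : (0 : ℝ) < q := by linarith
  have hG : 0 ≤ Real.log q := Real.log_nonneg hq'
  have hM0 : (0 : ℝ) ≤ M := by positivity
  have h1 := scales c k M α β 4 3 ε η (C * 2 ^ ε * (2 ^ (k + 1) * 4) * (1 + Real.log q) * M) N0 N hN0 hη
    (by linarith) hε (by positivity) (by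
      intro X hX0 hXN V hV
      have hX1 : 1 ≤ X := hN0.trans hX0
      refine (h (2 * X) (by omega) c hc α β q hq a hcop hα M V hV).trans ?_
      have hX' : (1 : ℝ) ≤ X := by exact_mod_cast hX1
      have hXr : (0 : ℝ) < X := by linarith
      have hXk : (X : ℝ) ^ (k - 2) ≤ q := by exact_mod_cast (Nat.pow_le_pow_left hXN _).trans hNq
      have hXM : (X : ℝ) ^ (k - 2) ≤ M := by exact_mod_cast (Nat.pow_le_pow_left hXN _).trans hNM
      have hqX : (q : ℝ) ≤ (X : ℝ) ^ 2 * M := by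
        have : q ≤ X ^ 2 * M := hqM.trans (Nat.mul_le_mul_right _ (Nat.pow_le_pow_left hX0 2))
        exact_mod_cast this
      have hpow : (X : ℝ) ^ (k + 1) = (X : ℝ) ^ 3 * (X : ℝ) ^ (k - 2) := by
        rw [← pow_add]; congr 1; omega
      have f1 : (2 : ℝ) ^ 3 ≤ 2 ^ (k + 1) := pow_le_pow_right₀ (by norm_num) (by omega)
      have f2 : (2 : ℝ) ≤ 2 ^ (k + 1) := by
        calc (2 : ℝ) = 2 ^ 1 := by norm_num
          _ ≤ 2 ^ (k + 1) := pow_le_pow_right₀ (by norm_num) (by omega)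
      have g1 : (2 * (X : ℝ)) ^ 3 * M ≤ 2 ^ (k + 1) * ((X : ℝ) ^ 3 * M) := by
        rw [mul_pow, mul_assoc]
        exact mul_le_mul_of_nonneg_right f1 (by positivity)
      have g2 : (2 * (X : ℝ)) ^ (k + 1) * M / q ≤ 2 ^ (k + 1) * ((X : ℝ) ^ 3 * M) := by
        rw [mul_pow, hpow, div_le_iff₀ hq0]
        calc 2 ^ (k + 1) * ((X : ℝ) ^ 3 * (X : ℝ) ^ (k - 2)) * M
            = 2 ^ (k + 1) * ((X : ℝ) ^ 3 * M) * (X : ℝ) ^ (k - 2) := by ring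
          _ ≤ 2 ^ (k + 1) * ((X : ℝ) ^ 3 * M) * q := mul_le_mul_of_nonneg_left hXk (by positivity)
      have g3 : (2 * (X : ℝ)) ^ (k + 1) ≤ 2 ^ (k + 1) * ((X : ℝ) ^ 3 * M) := by
        rw [mul_pow, hpow]
        exact mul_le_mul_of_nonneg_left (mul_le_mul_of_nonneg_left hXM (by positivity)) (by positivity)
      have g4 : (2 * (X : ℝ)) * q ≤ 2 ^ (k + 1) * ((X : ℝ) ^ 3 * M) := by
        calc (2 * (X : ℝ)) * q ≤ (2 * (X : ℝ)) * ((X : ℝ) ^ 2 * M) := mul_le_mul_of_nonneg_left hqX (by positivity)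
          _ = 2 * ((X : ℝ) ^ 3 * M) := by ring
          _ ≤ _ := mul_le_mul_of_nonneg_right f2 (by positivity)
      have g5 : (2 * (X : ℝ)) ^ ε = 2 ^ ε * (X : ℝ) ^ ε := Real.mul_rpow (by norm_num) hXr.le
      push_cast
      apply div_le_div_of_nonneg_right _ (by positivity)
      rw [g5]
      calc C * (2 ^ ε * (X : ℝ) ^ ε) * (1 + Real.log q) *
          ((2 * (X : ℝ)) ^ 3 * M + (2 * (X : ℝ)) ^ (k + 1) * M / q + (2 * (X : ℝ)) ^ (k + 1) + (2 * (X : ℝ)) * q)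
          ≤ C * (2 ^ ε * (X : ℝ) ^ ε) * (1 + Real.log q) * (4 * (2 ^ (k + 1) * ((X : ℝ) ^ 3 * M))) := by
            apply mul_le_mul_of_nonneg_left _ (by positivity)
            linarith
        _ = C * 2 ^ ε * (2 ^ (k + 1) * 4) * (1 + Real.log q) * M * ((X : ℝ) ^ 3 * (X : ℝ) ^ ε) := by ring
        _ = _ := by
            rw [Real.rpow_add hXr]
            norm_num)
    γ (by rw [hγ]; push_cast; ring) hγ0
  refine h1.trans (le_of_eq ?_)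
  ring

theorem mont (k j : ℕ) (hj : 2 ≤ j) (hjk : j ≤ k) (η ε : ℝ) (hη : 0 ≤ η) (hη1 : (2 ^ j + 2) * η ≤ j) (hε : 0 < ε) :
    ∃ C : ℝ, 0 < C ∧ ∀ N0 N : ℕ, 1 ≤ N0 → N0 ≤ N →
    ∀ c : ℕ → ℂ, (∀ n, ‖c n‖ ≤ 1) → ∀ α β : ℝ, ∀ q : ℕ, 1 ≤ q → ∀ a : ℤ, IsCoprime a (q : ℤ) →
    |α - a / q| ≤ 1 / (q : ℝ) ^ 2 → ∀ M : ℕ, N ^ k ≤ q → q ≤ M →
    (({m : ℕ | 1 ≤ m ∧ m ≤ M ∧ ∃ X : ℕ, N0 ≤ X ∧ X ≤ N ∧ Fl c k η ε X (β + (m : ℝ) * α)}.ncard : ℕ) : ℝ) ≤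
      C * (1 + Real.log q) * M * (N0 : ℝ) ^ (-((j : ℝ) - (2 ^ j + 2) * η + (2 ^ j + 1) * ε)) := by
  obtain ⟨C, hC, h⟩ := gen k j hj hjk ε hε
  set γ : ℝ := (j : ℝ) - (2 ^ j + 2) * η + (2 ^ j + 1) * ε with hγ
  have hγ0 : 0 < γ := by
    rw [hγ]
    have : 0 < (2 ^ j + 1) * ε := by positivity
    linarith
  have hr1 : (2 : ℝ) ^ (-γ) < 1 := Real.rpow_lt_one_of_one_lt_of_neg (by norm_num) (by linarith)
  have hr2 : 0 < 1 - (2 : ℝ) ^ (-γ) := by linarith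
  have hη2 : η ≤ 1 := by
    have h1 : (j : ℝ) ≤ 2 ^ j := by
      have : j ≤ 2 ^ j := Nat.lt_two_pow_self.le
      exact_mod_cast this
    have h2 : (0 : ℝ) < 2 ^ j := by positivity
    by_contra hcon
    push Not at hcon
    nlinarith
  set A : ℝ := (2 : ℝ) ^ j + 2 - j with hA
  refine ⟨C * 2 ^ (A + ε) * (2 + 2 * 2 ^ k) / (1 - (2 : ℝ) ^ (-γ)), by positivity, ?_⟩
  intro N0 N hN0 hN0N c hc α β q hq a hcop hα M hNq hqM
  have hq' : (1 : ℝ) ≤ q := by exact_mod_cast hq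
  have hq0 : (0 : ℝ) < q := by linarith
  have hG : 0 ≤ Real.log q := Real.log_nonneg hq'
  have hM0 : (0 : ℝ) ≤ M := by positivity
  have h1 := scales c k M α β (2 ^ j + 2) A ε η (C * 2 ^ (A + ε) * (2 + 2 * 2 ^ k) * (1 + Real.log q) * M) N0 N hN0 hη
    hη2 hε (by positivity) (by
      intro X hX0 hXN V hV
      have hX1 : 1 ≤ X := hN0.trans hX0
      refine (h (2 * X) (by omega) c hc α β q hq a hcop hα M V hV).trans ?_
      have hX' : (1 : ℝ) ≤ X := by exact_mod_cast hX1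
      have hXr : (0 : ℝ) < X := by linarith
      have hXk : (X : ℝ) ^ k ≤ q := by exact_mod_cast (Nat.pow_le_pow_left hXN _).trans hNq
      have hqM' : (q : ℝ) ≤ M := by exact_mod_cast hqM
      have g2 : (2 * (X : ℝ)) ^ k * M / q ≤ 2 ^ k * M := by
        rw [mul_pow, div_le_iff₀ hq0]
        calc 2 ^ k * (X : ℝ) ^ k * M = 2 ^ k * M * (X : ℝ) ^ k := by ring
          _ ≤ 2 ^ k * M * q := mul_le_mul_of_nonneg_left hXk (by positivity)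
      have g3 : (2 * (X : ℝ)) ^ k ≤ 2 ^ k * M := by
        rw [mul_pow]
        exact mul_le_mul_of_nonneg_left (hXk.trans hqM') (by positivity)
      have g5 : (2 * (X : ℝ)) ^ (A + ε) = 2 ^ (A + ε) * (X : ℝ) ^ (A + ε) := Real.mul_rpow (by norm_num) hXr.le
      push_cast
      apply div_le_div_of_nonneg_right _ (by positivity)
      rw [g5]
      calc C * (2 ^ (A + ε) * (X : ℝ) ^ (A + ε)) * (1 + Real.log q) *
          ((M : ℝ) + (2 * (X : ℝ)) ^ k * M / q + (2 * (X : ℝ)) ^ k + q)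
          ≤ C * (2 ^ (A + ε) * (X : ℝ) ^ (A + ε)) * (1 + Real.log q) * ((2 + 2 * 2 ^ k) * M) := by
            apply mul_le_mul_of_nonneg_left _ (by positivity)
            linarith
        _ = _ := by ring)
    γ (by rw [hγ, hA]; push_cast; ring) hγ0
  refine h1.trans (le_of_eq ?_)
  ring

/-- cutting the progression into blocks -/
theorem blocks (c : ℕ → ℂ) (k N M M0 : ℕ) (hM0 : 1 ≤ M0) (α β V B : ℝ)
    (h : ∀ β' : ℝ, ((Bad c k N M0 α β' V).ncard : ℝ) ≤ B) :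
    ((Bad c k N M α β V).ncard : ℝ) ≤ ((M : ℝ) / M0 + 1) * B := by
  classical
  have hB : 0 ≤ B := le_trans (by positivity) (h 0)
  set L : ℕ := M / M0 + 1 with hL
  have hsub : Bad c k N M α β V ⊆ ⋃ i ∈ range L,
      (fun m => i * M0 + m) '' (Bad c k N M0 α (β + ((i * M0 : ℕ) : ℝ) * α) V) := by
    intro m hm
    obtain ⟨hm1, hm2, ξ, u, v, hv, hV⟩ := hm
    rw [Set.mem_iUnion₂]
    refine ⟨(m - 1) / M0, ?_, ?_⟩
    · rw [Finset.mem_range, hL]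
      have : (m - 1) / M0 ≤ M / M0 := Nat.div_le_div_right (by omega)
      omega
    · have h1 := Nat.div_add_mod (m - 1) M0
      have h2 := Nat.mod_lt (m - 1) (show M0 > 0 by omega)
      rw [mul_comm] at h1
      refine ⟨(m - 1) % M0 + 1, ⟨by omega, by omega, ξ, u, v, hv, ?_⟩, ?_⟩
      · have h3 : β + (((m - 1) / M0 * M0 : ℕ) : ℝ) * α + ((((m - 1) % M0 + 1 : ℕ)) : ℝ) * α = β + (m : ℝ) * α := by
          have h4 : (m : ℝ) = (((m - 1) / M0 * M0 : ℕ) : ℝ) + ((((m - 1) % M0 + 1 : ℕ)) : ℝ) := by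
            rw [← Nat.cast_add]
            congr 1
            omega
          rw [h4]; ring
        rw [h3]
        exact hV
      · simp only
        omega
  have hfin : ∀ i ∈ range L, ((fun m => i * M0 + m) '' (Bad c k N M0 α (β + ((i * M0 : ℕ) : ℝ) * α) V)).Finite :=
    fun i _ => ((Finset.finite_toSet _).subset (Bad_sub _ _ _ _ _ _ _)).image _
  have h1 : (Bad c k N M α β V).ncard ≤ ∑ i ∈ range L,
      ((fun m => i * M0 + m) '' (Bad c k N M0 α (β + ((i * M0 : ℕ) : ℝ) * α) V)).ncard := by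
    refine (Set.ncard_le_ncard hsub ?_).trans (Finset.set_ncard_biUnion_le (range L) _)
    exact Set.Finite.biUnion (Finset.finite_toSet _) hfin
  have h2 : ∀ i ∈ range L,
      (((fun m => i * M0 + m) '' (Bad c k N M0 α (β + ((i * M0 : ℕ) : ℝ) * α) V)).ncard : ℝ) ≤ B := by
    intro i _
    refine le_trans ?_ (h (β + ((i * M0 : ℕ) : ℝ) * α))
    exact_mod_cast Set.ncard_image_le ((Finset.finite_toSet _).subset (Bad_sub _ _ _ _ _ _ _))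
  calc ((Bad c k N M α β V).ncard : ℝ) ≤ ∑ i ∈ range L,
      (((fun m => i * M0 + m) '' (Bad c k N M0 α (β + ((i * M0 : ℕ) : ℝ) * α) V)).ncard : ℝ) := by exact_mod_cast h1
    _ ≤ ∑ _i ∈ range L, B := Finset.sum_le_sum h2
    _ = (L : ℝ) * B := by rw [Finset.sum_const, Finset.card_range, nsmul_eq_mul]
    _ ≤ ((M : ℝ) / M0 + 1) * B := by
        apply mul_le_mul_of_nonneg_right _ hB
        rw [hL]
        push_cast
        have := @Nat.cast_div_le ℝ _ _ _ M M0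
        linarith

/-- rational approximations of a number that is not too well approximable -/
theorem approx (k : ℕ) (hk : 3 ≤ k) (τ κ α : ℝ) (hτ : 1 ≤ τ) (hτk : ((k : ℝ) - 2) * τ ≤ k) (hκ : 0 < κ)
    (h : ∀ (a : ℤ) (q : ℕ), 1 ≤ q → κ / (q : ℝ) ^ (1 + τ) ≤ |α - a / q|) (X : ℕ) (hX : 1 ≤ X) :
    ∃ (a : ℤ) (q : ℕ), 1 ≤ q ∧ IsCoprime a (q : ℤ) ∧ |α - a / q| ≤ 1 / (q : ℝ) ^ 2 ∧ X ^ (k - 2) ≤ q ∧
      (q : ℝ) ≤ (1 / κ + 1) * (X : ℝ) ^ k := by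
  have hX' : (1 : ℝ) ≤ X := by exact_mod_cast hX
  have hX0 : (0 : ℝ) < X := by linarith
  have hk2 : (0 : ℝ) ≤ (k : ℝ) - 2 := by
    have : (3 : ℝ) ≤ k := by exact_mod_cast hk
    linarith
  set n : ℕ := ⌈(X : ℝ) ^ (((k : ℝ) - 2) * τ) / κ⌉₊ with hn
  have hn1 : (X : ℝ) ^ (((k : ℝ) - 2) * τ) / κ ≤ n := Nat.le_ceil _
  have hn0 : 0 < n := Nat.ceil_pos.mpr (by positivity)
  have hn2 : (n : ℝ) < (X : ℝ) ^ (((k : ℝ) - 2) * τ) / κ + 1 := Nat.ceil_lt_add_one (by positivity)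
  obtain ⟨r, hr1, hr2⟩ := Real.exists_rat_abs_sub_le_and_den_le α hn0
  have hq1 : 1 ≤ r.den := r.pos
  have hq' : (1 : ℝ) ≤ (r.den : ℝ) := by exact_mod_cast hq1
  have hq0 : (0 : ℝ) < (r.den : ℝ) := by linarith
  have hcast : ((r : ℚ) : ℝ) = (r.num : ℝ) / (r.den : ℝ) := by
    exact Rat.cast_def r
  rw [hcast] at hr1
  have hden : (r.den : ℝ) ≤ n := by exact_mod_cast hr2
  have hnr : (0 : ℝ) < n := by exact_mod_cast hn0
  refine ⟨r.num, r.den, hq1, ?_, ?_, ?_, ?_⟩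
  · exact Rat.isCoprime_num_den r
  · refine hr1.trans ?_
    apply one_div_le_one_div_of_le (by positivity)
    nlinarith
  · have h1 := (h r.num r.den hq1).trans hr1
    rw [div_le_div_iff₀ (by positivity) (by positivity), one_mul] at h1
    have h2 : (r.den : ℝ) ^ (1 + τ) = (r.den : ℝ) * (r.den : ℝ) ^ τ := by
      rw [Real.rpow_add hq0, Real.rpow_one]
    rw [h2] at h1
    have h3 : κ * ((n : ℝ) + 1) ≤ (r.den : ℝ) ^ τ := by
      have : κ * ((n : ℝ) + 1) * (r.den : ℝ) ≤ (r.den : ℝ) ^ τ * (r.den : ℝ) := by linarith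
      exact le_of_mul_le_mul_right this hq0
    have h4 : (X : ℝ) ^ (((k : ℝ) - 2) * τ) ≤ (r.den : ℝ) ^ τ := by
      refine le_trans ?_ h3
      rw [div_le_iff₀ hκ] at hn1
      nlinarith
    rw [Real.rpow_mul hX0.le] at h4
    have h5 := (Real.rpow_le_rpow_iff (by positivity) hq0.le (by linarith)).mp h4
    have h6 : (X : ℝ) ^ ((k : ℝ) - 2) = (X : ℝ) ^ (k - 2) := by
      rw [← Real.rpow_natCast, Nat.cast_sub (by omega)]
      norm_num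
    rw [h6] at h5
    exact_mod_cast h5
  · refine hden.trans (hn2.le.trans ?_)
    have h6 : (X : ℝ) ^ (((k : ℝ) - 2) * τ) ≤ (X : ℝ) ^ k := by
      rw [← Real.rpow_natCast]
      exact Real.rpow_le_rpow_of_exponent_le hX' hτk
    have h7 : (1 : ℝ) ≤ (X : ℝ) ^ k := one_le_pow₀ hX'
    have h8 : (X : ℝ) ^ (((k : ℝ) - 2) * τ) / κ ≤ (X : ℝ) ^ k / κ := div_le_div_of_nonneg_right h6 hκ.le
    have h9 : (1 / κ + 1) * (X : ℝ) ^ k = (X : ℝ) ^ k / κ + (X : ℝ) ^ k := by ring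
    linarith

/-- almost all multiples of a fixed number -/
theorem density (k : ℕ) (hk : 3 ≤ k) (η ε : ℝ) (hη : 0 ≤ η) (hη1 : η ≤ 1 / 4) (hε : 0 < ε)
    (τ κ : ℝ) (hτ : 1 ≤ τ) (hτk : ((k : ℝ) - 2) * τ ≤ k) (hκ : 0 < κ) : ∃ C : ℝ, 0 < C ∧
    ∀ α : ℝ, (∀ (a : ℤ) (q : ℕ), 1 ≤ q → κ / (q : ℝ) ^ (1 + τ) ≤ |α - a / q|) →
    ∀ c : ℕ → ℂ, (∀ n, ‖c n‖ ≤ 1) → ∀ β : ℝ, ∀ N0 M : ℕ, 1 ≤ N0 →
    (({m : ℕ | 1 ≤ m ∧ m ≤ M ∧ ∃ X : ℕ, N0 ≤ X ∧ X ^ (k - 2) ≤ M ∧ Fl c k η ε X (β + (m : ℝ) * α)}.ncard : ℕ) : ℝ) ≤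
      C * M * (N0 : ℝ) ^ (-(1 - 4 * η + 2 * ε)) := by
  obtain ⟨C, hC, h⟩ := four k hk ε hε
  set A : ℝ := 1 / κ + 1 with hA
  have hA0 : 1 ≤ A := by rw [hA]; have : 0 < 1 / κ := by positivity
                         linarith
  obtain ⟨CL, hCL, hL⟩ := Pool.Agent.TH181.MX.log_le ε hε
  set γ : ℝ := 1 - 4 * η + 2 * ε with hγ
  have hγ0 : 0 < γ := by rw [hγ]; linarith
  have hr1 : (2 : ℝ) ^ (-γ) < 1 := Real.rpow_lt_one_of_one_lt_of_neg (by norm_num) (by linarith)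
  have hr2 : 0 < 1 - (2 : ℝ) ^ (-γ) := by linarith
  have hk0 : (0 : ℝ) < k := by
    have : 0 < k := by omega
    exact_mod_cast this
  have hlogA : 0 ≤ Real.log A := Real.log_nonneg hA0
  set K1 : ℝ := C * 2 ^ ε * (2 ^ (k + 1) * (3 + A)) * ((1 + Real.log A + k) * CL) * 2 with hK1
  refine ⟨K1 / (1 - (2 : ℝ) ^ (-γ)), by positivity, ?_⟩
  intro α hα c hc β N0 M hN0
  set N : ℕ := Nat.findGreatest (fun X => X ^ (k - 2) ≤ M) M with hN
  have hNM : N ^ (k - 2) ≤ M := by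
    have := Nat.findGreatest_spec (P := fun X => X ^ (k - 2) ≤ M) (m := 0) (n := M) (Nat.zero_le _) (by
      rw [Nat.zero_pow (by omega)]
      exact Nat.zero_le _)
    exact this
  have hsub : {m : ℕ | 1 ≤ m ∧ m ≤ M ∧ ∃ X : ℕ, N0 ≤ X ∧ X ^ (k - 2) ≤ M ∧ Fl c k η ε X (β + (m : ℝ) * α)} ⊆
      {m : ℕ | 1 ≤ m ∧ m ≤ M ∧ ∃ X : ℕ, N0 ≤ X ∧ X ≤ N ∧ Fl c k η ε X (β + (m : ℝ) * α)} := by
    rintro m ⟨h1, h2, X, h3, h4, h5⟩
    refine ⟨h1, h2, X, h3, ?_, h5⟩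
    exact Nat.le_findGreatest (P := fun X => X ^ (k - 2) ≤ M) ((Nat.le_self_pow (by omega) X).trans h4) h4
  have hfin : {m : ℕ | 1 ≤ m ∧ m ≤ M ∧ ∃ X : ℕ, N0 ≤ X ∧ X ≤ N ∧ Fl c k η ε X (β + (m : ℝ) * α)}.Finite :=
    (Set.finite_Icc 1 M).subset (fun m hm => ⟨hm.1, hm.2.1⟩)
  have h0 : (({m : ℕ | 1 ≤ m ∧ m ≤ M ∧ ∃ X : ℕ, N0 ≤ X ∧ X ^ (k - 2) ≤ M ∧
      Fl c k η ε X (β + (m : ℝ) * α)}.ncard : ℕ) : ℝ) ≤ (({m : ℕ | 1 ≤ m ∧ m ≤ M ∧ ∃ X : ℕ, N0 ≤ X ∧ X ≤ N ∧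
      Fl c k η ε X (β + (m : ℝ) * α)}.ncard : ℕ) : ℝ) := by
    exact_mod_cast Set.ncard_le_ncard hsub hfin
  refine h0.trans ?_
  have hM0 : (0 : ℝ) ≤ M := by positivity
  have h1 := scales c k M α β 4 (3 + ε) ε η (K1 * M) N0 N hN0 hη (by linarith) hε (by positivity) (by
      intro X hX0 hXN V hV
      have hX1 : 1 ≤ X := hN0.trans hX0
      have hX' : (1 : ℝ) ≤ X := by exact_mod_cast hX1
      have hXr : (0 : ℝ) < X := by linarith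
      obtain ⟨a, q, hq, hcop, hα2, hXq, hqX⟩ := approx k hk τ κ α hτ hτk hκ hα X hX1
      have hq' : (1 : ℝ) ≤ q := by exact_mod_cast hq
      have hq0 : (0 : ℝ) < q := by linarith
      have hG : 0 ≤ Real.log q := Real.log_nonneg hq'
      have hM1 : 1 ≤ X ^ (k - 2) := Nat.one_le_pow _ _ (by omega)
      have hXM : X ^ (k - 2) ≤ M := (Nat.pow_le_pow_left hXN _).trans hNM
      have hXMr : (X : ℝ) ^ (k - 2) ≤ M := by exact_mod_cast hXM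
      have hXqr : (X : ℝ) ^ (k - 2) ≤ q := by exact_mod_cast hXq
      have hXk0 : (0 : ℝ) < (X : ℝ) ^ (k - 2) := by positivity
      have h2 := blocks c k (2 * X) M (X ^ (k - 2)) hM1 α β V _
        (fun β' => h (2 * X) (by omega) c hc α β' q hq a hcop hα2 (X ^ (k - 2)) V hV)
      refine h2.trans ?_
      have hpow : (X : ℝ) ^ (k + 1) = (X : ℝ) ^ 3 * (X : ℝ) ^ (k - 2) := by
        rw [← pow_add]; congr 1; omega
      have hpow2 : (X : ℝ) ^ (k + 1) = X * (X : ℝ) ^ k := by ring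
      have f1 : (2 : ℝ) ^ 3 ≤ 2 ^ (k + 1) := pow_le_pow_right₀ (by norm_num) (by omega)
      have f2 : (2 : ℝ) ≤ 2 ^ (k + 1) := by
        calc (2 : ℝ) = 2 ^ 1 := by norm_num
          _ ≤ 2 ^ (k + 1) := pow_le_pow_right₀ (by norm_num) (by omega)
      have g1 : (2 * (X : ℝ)) ^ 3 * (X : ℝ) ^ (k - 2) ≤ 2 ^ (k + 1) * (X : ℝ) ^ (k + 1) := by
        rw [mul_pow, hpow, mul_assoc]
        exact mul_le_mul_of_nonneg_right f1 (by positivity)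
      have g2 : (2 * (X : ℝ)) ^ (k + 1) * (X : ℝ) ^ (k - 2) / q ≤ 2 ^ (k + 1) * (X : ℝ) ^ (k + 1) := by
        rw [mul_pow, div_le_iff₀ hq0]
        exact mul_le_mul_of_nonneg_left hXqr (by positivity)
      have g3 : (2 * (X : ℝ)) ^ (k + 1) ≤ 2 ^ (k + 1) * (X : ℝ) ^ (k + 1) := by
        rw [mul_pow]
      have g4 : (2 * (X : ℝ)) * q ≤ 2 ^ (k + 1) * A * (X : ℝ) ^ (k + 1) := by
        calc (2 * (X : ℝ)) * q ≤ (2 * (X : ℝ)) * (A * (X : ℝ) ^ k) := mul_le_mul_of_nonneg_left hqX (by positivity)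
          _ = 2 * (A * (X : ℝ) ^ (k + 1)) := by rw [hpow2]; ring
          _ ≤ 2 ^ (k + 1) * (A * (X : ℝ) ^ (k + 1)) := mul_le_mul_of_nonneg_right f2 (by positivity)
          _ = _ := by ring
      have g5 : (2 * (X : ℝ)) ^ ε = 2 ^ ε * (X : ℝ) ^ ε := Real.mul_rpow (by norm_num) hXr.le
      have g6 : 1 + Real.log q ≤ (1 + Real.log A + k) * (CL * (X : ℝ) ^ ε) := by
        have h3 : Real.log q ≤ Real.log (A * (X : ℝ) ^ k) := Real.log_le_log hq0 hqX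
        rw [Real.log_mul (by positivity) (by positivity), Real.log_pow] at h3
        have h4 := hL X hX1
        have h5 : 0 ≤ Real.log X := Real.log_nonneg hX'
        have h6 : 1 + Real.log q ≤ (1 + Real.log A + k) * (1 + Real.log X) := by
          have : 0 ≤ Real.log A * Real.log X := mul_nonneg hlogA h5
          nlinarith
        refine h6.trans (mul_le_mul_of_nonneg_left h4 (by positivity))
      have g7 : (M : ℝ) / ((X ^ (k - 2) : ℕ) : ℝ) + 1 ≤ 2 * M / (X : ℝ) ^ (k - 2) := by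
        push_cast
        rw [div_add_one hXk0.ne', div_le_div_iff_of_pos_right hXk0]
        linarith
      have g8 : (2 * (X : ℝ)) ^ 3 * (X : ℝ) ^ (k - 2) + (2 * (X : ℝ)) ^ (k + 1) * (X : ℝ) ^ (k - 2) / q +
          (2 * (X : ℝ)) ^ (k + 1) + (2 * (X : ℝ)) * q ≤ 2 ^ (k + 1) * (3 + A) * (X : ℝ) ^ (k + 1) := by linarith
      have hL0 : 0 ≤ 1 + Real.log A + k := by positivity
      calc ((M : ℝ) / ((X ^ (k - 2) : ℕ) : ℝ) + 1) * (C * ((2 * X : ℕ) : ℝ) ^ ε * (1 + Real.log q) *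
          (((2 * X : ℕ) : ℝ) ^ 3 * ((X ^ (k - 2) : ℕ) : ℝ) + ((2 * X : ℕ) : ℝ) ^ (k + 1) * ((X ^ (k - 2) : ℕ) : ℝ) / q +
            ((2 * X : ℕ) : ℝ) ^ (k + 1) + ((2 * X : ℕ) : ℝ) * q) / V ^ 4)
          ≤ (2 * M / (X : ℝ) ^ (k - 2)) * (C * (2 ^ ε * (X : ℝ) ^ ε) * ((1 + Real.log A + k) * (CL * (X : ℝ) ^ ε)) *
            (2 ^ (k + 1) * (3 + A) * (X : ℝ) ^ (k + 1)) / V ^ 4) := by
            apply mul_le_mul g7 _ (by positivity) (by positivity)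
            apply div_le_div_of_nonneg_right _ (by positivity)
            push_cast
            rw [g5]
            apply mul_le_mul _ g8 (by positivity) (by positivity)
            exact mul_le_mul_of_nonneg_left g6 (by positivity)
        _ = K1 * M * ((X : ℝ) ^ 3 * (X : ℝ) ^ ε * (X : ℝ) ^ ε) / V ^ 4 := by
            rw [hK1, hpow]
            field_simp
        _ = K1 * M * (X : ℝ) ^ (3 + ε + ε) / V ^ 4 := by
            rw [Real.rpow_add hXr, Real.rpow_add hXr]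
            norm_num)
    γ (by rw [hγ]; push_cast; ring) hγ0
  refine h1.trans (le_of_eq ?_)
  ring

end Pool.Agent.Helper68K9.MW
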